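import Mathlib

set_option autoImplicit false
set_option linter.unusedSectionVars false

namespace Pool.Agent.H488Z.Cliff

open Finset

section Alg
variable {R : Type*} [Ring R]

lemma add_pow_succ_sq_zero {S η : R} (hc : S * η = η * S) (h2 : η * η = 0) (k : ℕ) :
    (S + η) ^ (k + 1) = S ^ (k + 1) + ((k + 1 : ℕ) : R) * (S ^ k * η) := by
  induction k with
  | zero => simp
  | succ k ih =>
    rw [pow_succ (S + η) (k + 1), ih]
    have h3 : S ^ k * η * S = S ^ (k + 1) * η := by
      rw [mul_assoc, ← hc, ← mul_assoc, ← pow_succ]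
    have h4 : S ^ k * η * η = 0 := by rw [mul_assoc, h2, mul_zero]
    rw [add_mul, mul_add, mul_add, mul_assoc _ (S ^ k * η) S, mul_assoc _ (S ^ k * η) η, h3, h4,
      ← pow_succ]
    push_cast
    noncomm_ring

lemma list_sum_pow (l : List R) (hc : ∀ a ∈ l, ∀ b ∈ l, a * b = b * a)
    (h2 : ∀ a ∈ l, a * a = 0) :
    l.sum ^ l.length = ((l.length.factorial : ℕ) : R) * l.prod ∧ l.sum ^ (l.length + 1) = 0 := by
  induction l with
  | nil => simp
  | cons a l ih =>
    obtain ⟨ih1, ih2⟩ := ih (fun x hx y hy => hc x (by simp [hx]) y (by simp [hy]))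
      (fun x hx => h2 x (by simp [hx]))
    have hca : Commute l.sum a := by
      apply Commute.list_sum_left
      intro b hb
      exact hc b (by simp [hb]) a (by simp)
    have hcp : Commute l.prod a := by
      apply Commute.list_prod_left
      intro b hb
      exact hc b (by simp [hb]) a (by simp)
    have ha := h2 a (by simp)
    rw [List.sum_cons, List.length_cons, List.prod_cons, add_comm a l.sum]
    constructor
    · rw [add_pow_succ_sq_zero hca.eq ha, ih2, ih1, zero_add, Nat.factorial_succ, mul_assoc,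
        hcp.eq]
      push_cast
      rw [mul_assoc]
    · rw [add_pow_succ_sq_zero hca.eq ha, ih2, pow_succ, ih2]
      simp

lemma finset_sum_pow {ι : Type*} (s : Finset ι) (η : ι → R) (hc : ∀ a b, η a * η b = η b * η a)
    (h2 : ∀ a, η a * η a = 0) : (∑ j ∈ s, η j) ^ (s.card + 1) = 0 := by
  have h := (list_sum_pow (s.toList.map η) (by
    intro a ha b hb
    obtain ⟨i, -, rfl⟩ := List.mem_map.1 ha
    obtain ⟨j, -, rfl⟩ := List.mem_map.1 hb
    exact hc i j) (by
    intro a ha
    obtain ⟨i, -, rfl⟩ := List.mem_map.1 ha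
    exact h2 i)).2
  simpa [Finset.sum_map_toList] using h

lemma single_mul_pow {n : ℕ} (η : Fin (n + 1) → R) (hc : ∀ a b, η a * η b = η b * η a)
    (h2 : ∀ a, η a * η a = 0) (j : Fin (n + 1)) :
    ((n + 1 : ℕ) : R) * (η j * (∑ i, η i) ^ n) = (∑ i, η i) ^ (n + 1) := by
  classical
  set S := ∑ i ∈ Finset.univ.erase j, η i with hS
  have h1 : ∑ i, η i = S + η j := by
    rw [hS, Finset.sum_erase_add _ _ (Finset.mem_univ j)]
  have hSj : Commute S (η j) := by
    apply Commute.sum_left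
    intro i _
    exact hc i j
  have hS0 : S ^ (n + 1) = 0 := by
    have := finset_sum_pow (Finset.univ.erase j) η hc h2
    rw [Finset.card_erase_of_mem (Finset.mem_univ j), Finset.card_univ, Fintype.card_fin,
      Nat.add_sub_cancel] at this
    exact this
  rw [h1, add_pow_succ_sq_zero hSj.eq (h2 j), hS0, zero_add]
  congr 1
  cases n with
  | zero => simp
  | succ n =>
    rw [add_pow_succ_sq_zero hSj.eq (h2 j), mul_add, (hSj.pow_left (n + 1)).eq]
    have : η j * (((n + 1 : ℕ) : R) * (S ^ n * η j)) = 0 := by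
      rw [← mul_assoc, ← (Nat.cast_commute (n + 1) (η j)).eq, mul_assoc, (hSj.pow_left n).eq,
        ← mul_assoc (η j), h2 j, zero_mul, mul_zero]
    rw [this, add_zero]

/-- The derivative of `X ^ n` when the derivative of `X` is `Y`. -/
def powDer (X Y : R) : ℕ → R
  | 0 => 0
  | n + 1 => Y * X ^ n + X * powDer X Y n

lemma sum_powDer {ι : Type*} [Fintype ι] (X : R) (ψ Y : ι → R) (hψ : ∀ k, ψ k * X = -(X * ψ k))
    (hY : ∑ k, ψ k * Y k = X * X) (n : ℕ) :
    ∃ c : ℤ, ∑ k, ψ k * powDer X (Y k) n = c • X ^ (n + 1) := by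
  induction n with
  | zero => exact ⟨0, by simp [powDer]⟩
  | succ n ih =>
    obtain ⟨c, hc⟩ := ih
    refine ⟨1 - c, ?_⟩
    have h1 : ∀ k, ψ k * powDer X (Y k) (n + 1)
        = (ψ k * Y k) * X ^ n - X * (ψ k * powDer X (Y k) n) := by
      intro k
      rw [powDer, mul_add, ← mul_assoc (ψ k) X, hψ k]
      noncomm_ring
    simp only [h1]
    rw [Finset.sum_sub_distrib, ← Finset.sum_mul, ← Finset.mul_sum, hY, hc, sub_smul, one_smul,
      mul_smul_comm, ← pow_succ', mul_assoc, ← pow_succ', ← pow_succ']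

lemma anticomm_pow_odd {a X : R} (h : a * X = -(X * a)) (m : ℕ) :
    a * X ^ (2 * m + 1) = -(X ^ (2 * m + 1) * a) := by
  have h2 : Commute a (X * X) := by
    show a * (X * X) = X * X * a
    rw [← mul_assoc, h, neg_mul, mul_assoc X a X, h]
    noncomm_ring
  have h3 : Commute a (X ^ (2 * m)) := by
    rw [pow_mul, pow_two]
    exact h2.pow_right m
  rw [pow_succ, ← mul_assoc, h3.eq, mul_assoc, h]
  noncomm_ring

end Alg

section Cl
variable {R : Type*} [Ring R] [Algebra ℝ R] {ι : Type*} [Fintype ι] [DecidableEq ι]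

/-- Clifford generators `g`, and Grassmann generators `ψ` commuting with them. -/
structure Gens (g ψ : ι → R) : Prop where
  gsq : ∀ j, g j * g j = 1
  ganti : ∀ j k, j ≠ k → g j * g k = -(g k * g j)
  psq : ∀ j, ψ j * ψ j = 0
  panti : ∀ j k, ψ j * ψ k = -(ψ k * ψ j)
  comm : ∀ j k, ψ j * g k = g k * ψ j

/-- The linear combination of a family with real coefficients. -/
def lin (g : ι → R) (x : ι → ℝ) : R := ∑ j, x j • g j

/-- The one-form `θ`. -/
def theta (g ψ : ι → R) : R := ∑ j, ψ j * g j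

variable {g ψ : ι → R}

lemma Gens.anti_add (h : Gens g ψ) (j k : ι) :
    g j * g k + g k * g j = if j = k then 2 else 0 := by
  split_ifs with hjk
  · subst hjk
    rw [h.gsq]; norm_num
  · rw [h.ganti j k hjk]; simp

lemma Gens.g_lin (h : Gens g ψ) (x : ι → ℝ) (k : ι) :
    lin g x * g k + g k * lin g x = (2 * x k) • (1 : R) := by
  unfold lin
  rw [Finset.sum_mul, Finset.mul_sum, ← Finset.sum_add_distrib]
  have : ∀ j, x j • g j * g k + g k * x j • g j = if j = k then (2 * x k) • (1 : R) else 0 := by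
    intro j
    rw [smul_mul_assoc, mul_smul_comm, ← smul_add, h.anti_add]
    split_ifs with hjk
    · subst hjk
      rw [mul_comm, mul_smul, two_smul, one_add_one_eq_two]
    · simp
  simp only [this]
  simp

lemma Gens.lin_sq (h : Gens g ψ) (x : ι → ℝ) :
    lin g x * lin g x = (∑ j, x j ^ 2) • (1 : R) := by
  have h1 : (2 : ℝ) • (lin g x * lin g x) = (2 : ℝ) • ((∑ j, x j ^ 2) • (1 : R)) := by
    have h2 : (2 : ℝ) • (lin g x * lin g x)
        = ∑ k, x k • (lin g x * g k + g k * lin g x) := by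
      simp only [smul_add, Finset.sum_add_distrib, two_smul]
      congr 1
      · conv_lhs => rw [show lin g x * lin g x = lin g x * ∑ j, x j • g j from rfl]
        rw [Finset.mul_sum]
        simp only [mul_smul_comm]
      · conv_lhs => rw [show lin g x * lin g x = (∑ j, x j • g j) * lin g x from rfl]
        rw [Finset.sum_mul]
        simp only [smul_mul_assoc]
    rw [h2]
    simp only [h.g_lin, smul_smul, ← Finset.sum_smul, Finset.mul_sum]
    congr 1
    apply Finset.sum_congr rfl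
    intro j _
    ring
  exact smul_right_injective R (two_ne_zero (α := ℝ)) h1

lemma Gens.psi_lin (h : Gens g ψ) (x : ι → ℝ) (k : ι) : ψ k * lin g x = lin g x * ψ k := by
  unfold lin
  rw [Finset.sum_mul, Finset.mul_sum]
  apply Finset.sum_congr rfl
  intro j _
  rw [smul_mul_assoc, mul_smul_comm, h.comm]

lemma Gens.psi_theta (h : Gens g ψ) (k : ι) : ψ k * theta g ψ = -(theta g ψ * ψ k) := by
  unfold theta
  rw [Finset.sum_mul, Finset.mul_sum, ← Finset.sum_neg_distrib]
  apply Finset.sum_congr rfl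
  intro j _
  rw [← mul_assoc, h.panti k j, mul_assoc (ψ j), ← h.comm, neg_mul, mul_assoc]

lemma Gens.lin_theta (h : Gens g ψ) (x : ι → ℝ) :
    lin g x * theta g ψ + theta g ψ * lin g x = (2 : ℝ) • lin ψ x := by
  unfold theta
  rw [Finset.sum_mul, Finset.mul_sum, ← Finset.sum_add_distrib]
  conv_rhs => unfold lin
  rw [Finset.smul_sum]
  apply Finset.sum_congr rfl
  intro j _
  rw [← mul_assoc, ← h.psi_lin, mul_assoc, mul_assoc, ← mul_add, h.g_lin, mul_smul_comm, mul_one,
    smul_smul]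

lemma Gens.alpha_psi (h : Gens g ψ) (x : ι → ℝ) (k : ι) :
    lin ψ x * ψ k = -(ψ k * lin ψ x) := by
  unfold lin
  rw [Finset.sum_mul, Finset.mul_sum, ← Finset.sum_neg_distrib]
  apply Finset.sum_congr rfl
  intro j _
  rw [smul_mul_assoc, mul_smul_comm, h.panti j k, smul_neg]

lemma Gens.alpha_sq (h : Gens g ψ) (x : ι → ℝ) : lin ψ x * lin ψ x = 0 := by
  have h1 : lin ψ x * lin ψ x = -(lin ψ x * lin ψ x) := by
    conv_lhs => rw [show lin ψ x * lin ψ x = lin ψ x * ∑ j, x j • ψ j from rfl]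
    conv_rhs => rw [show lin ψ x * lin ψ x = (∑ j, x j • ψ j) * lin ψ x from rfl]
    rw [Finset.sum_mul, Finset.mul_sum, ← Finset.sum_neg_distrib]
    apply Finset.sum_congr rfl
    intro j _
    rw [smul_mul_assoc, mul_smul_comm, h.alpha_psi, smul_neg]
  have h2 : (2 : ℝ) • (lin ψ x * lin ψ x) = (2 : ℝ) • (0 : R) := by
    rw [two_smul, smul_zero]
    nth_rewrite 1 [h1]
    simp
  exact smul_right_injective R (two_ne_zero (α := ℝ)) h2

lemma Gens.alpha_theta (h : Gens g ψ) (x : ι → ℝ) :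
    lin ψ x * theta g ψ = -(theta g ψ * lin ψ x) := by
  unfold lin
  rw [Finset.sum_mul, Finset.mul_sum, ← Finset.sum_neg_distrib]
  apply Finset.sum_congr rfl
  intro j _
  rw [smul_mul_assoc, mul_smul_comm, h.psi_theta, smul_neg]

lemma Gens.alpha_lin (h : Gens g ψ) (x : ι → ℝ) : lin ψ x * lin g x = lin g x * lin ψ x := by
  conv_lhs => rw [show lin ψ x = ∑ j, x j • ψ j from rfl]
  conv_rhs => rw [show lin ψ x = ∑ j, x j • ψ j from rfl]
  rw [Finset.sum_mul, Finset.mul_sum]
  apply Finset.sum_congr rfl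
  intro j _
  rw [smul_mul_assoc, mul_smul_comm, h.psi_lin]

lemma Gens.alpha_pow_even (h : Gens g ψ) (x : ι → ℝ) (m : ℕ) :
    lin ψ x * (lin g x * theta g ψ) ^ (2 * m)
      = (-(∑ j, x j ^ 2)) ^ m • (lin ψ x * theta g ψ ^ (2 * m)) := by
  set a := lin ψ x with ha
  set u := lin g x with hu
  set t := theta g ψ with ht
  set r := ∑ j, x j ^ 2 with hr
  have h1 : u * u = r • (1 : R) := h.lin_sq x
  have h2 : t * u = (2 : ℝ) • a - u * t := by rw [← h.lin_theta x]; abel
  have h3 : a * a = 0 := h.alpha_sq x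
  have h4 : a * t = -(t * a) := h.alpha_theta x
  have h5 : a * u = u * a := h.alpha_lin x
  have h6 : a * ((u * t) * (u * t)) = (-r) • (a * (t * t)) := by
    have e1 : a * ((u * t) * (u * t)) = a * u * (t * u) * t := by noncomm_ring
    have e2 : a * u * a = 0 := by rw [h5, mul_assoc, h3, mul_zero]
    rw [e1, h2, mul_sub, mul_smul_comm, e2, smul_zero, zero_sub, mul_assoc a u, ← mul_assoc u u,
      h1]
    simp [mul_assoc]
  have h7 : a * (t * t) = (t * t) * a := by
    rw [← mul_assoc, h4, neg_mul, mul_assoc t a t, h4]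
    noncomm_ring
  induction m with
  | zero => simp
  | succ m ih =>
    have e1 : (u * t) ^ (2 * (m + 1)) = ((u * t) * (u * t)) * (u * t) ^ (2 * m) := by
      rw [show 2 * (m + 1) = 2 * m + 1 + 1 by ring, pow_succ', pow_succ', mul_assoc (u * t)]
    have e2 : t ^ (2 * (m + 1)) = (t * t) * t ^ (2 * m) := by
      rw [show 2 * (m + 1) = 2 * m + 1 + 1 by ring, pow_succ', pow_succ', mul_assoc t]
    rw [e1, ← mul_assoc, h6, h7, smul_mul_assoc, mul_assoc, ih, mul_smul_comm, smul_smul, e2,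
      ← mul_assoc (t * t), ← h7, mul_assoc a, pow_succ']

lemma Gens.alpha_pow_odd (h : Gens g ψ) (x : ι → ℝ) (m : ℕ) :
    lin ψ x * (lin g x * theta g ψ) ^ (2 * m + 1)
      = (-(∑ j, x j ^ 2)) ^ m • (lin g x * (lin ψ x * theta g ψ ^ (2 * m + 1))) := by
  have h4 := h.alpha_theta x
  have h5 := h.alpha_lin x
  have h6 := h.alpha_pow_even x m
  set a := lin ψ x with ha
  set u := lin g x with hu
  set t := theta g ψ with ht
  have e1 : a * (u * t) = -(u * t * a) := by
    rw [← mul_assoc, h5, mul_assoc, h4]; noncomm_ring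
  have e2 : t * a = -(a * t) := by rw [h4, neg_neg]
  rw [pow_succ', ← mul_assoc, e1, neg_mul, mul_assoc (u * t), h6, mul_smul_comm, ← smul_neg,
    pow_succ']
  congr 1
  rw [mul_assoc u t, ← mul_assoc t a, e2]
  noncomm_ring

end Cl

section Top
variable {R : Type*} [Ring R] [Algebra ℝ R] {n : ℕ} {g ψ : Fin (n + 1) → R}

lemma Gens.eta_comm (h : Gens g ψ) (a b : Fin (n + 1)) :
    (ψ a * g a) * (ψ b * g b) = (ψ b * g b) * (ψ a * g a) := by
  by_cases hab : a = b
  · rw [hab]
  · have e1 : (ψ a * g a) * (ψ b * g b) = (ψ a * ψ b) * (g a * g b) := by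
      rw [mul_assoc, ← mul_assoc (g a), ← h.comm]; noncomm_ring
    have e2 : (ψ b * g b) * (ψ a * g a) = (ψ b * ψ a) * (g b * g a) := by
      rw [mul_assoc, ← mul_assoc (g b), ← h.comm]; noncomm_ring
    rw [e1, e2, h.panti a b, h.ganti a b hab]
    noncomm_ring

lemma Gens.eta_sq (h : Gens g ψ) (a : Fin (n + 1)) : (ψ a * g a) * (ψ a * g a) = 0 := by
  rw [mul_assoc, ← mul_assoc (g a), ← h.comm, ← mul_assoc, ← mul_assoc, h.psq]
  simp

lemma Gens.top (h : Gens g ψ) (x : Fin (n + 1) → ℝ) :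
    ((n + 1 : ℕ) : ℝ) • (lin g x * (lin ψ x * theta g ψ ^ n))
      = (∑ j, x j ^ 2) • theta g ψ ^ (n + 1) := by
  have h1 : ∀ j, ((n + 1 : ℕ) : ℝ) • (ψ j * theta g ψ ^ n) = g j * theta g ψ ^ (n + 1) := by
    intro j
    have e1 := single_mul_pow (fun j => ψ j * g j) h.eta_comm h.eta_sq j
    have e2 : ψ j = g j * (ψ j * g j) := by
      rw [h.comm, ← mul_assoc, h.gsq, one_mul]
    unfold theta
    rw [← e1, ← nsmul_eq_mul, mul_smul_comm, Nat.cast_smul_eq_nsmul, ← mul_assoc, ← e2]
  have h2 : ((n + 1 : ℕ) : ℝ) • (lin ψ x * theta g ψ ^ n) = lin g x * theta g ψ ^ (n + 1) := by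
    unfold lin
    rw [Finset.sum_mul, Finset.sum_mul, Finset.smul_sum]
    apply Finset.sum_congr rfl
    intro j _
    rw [smul_mul_assoc, smul_mul_assoc, smul_comm, h1]
  rw [← mul_smul_comm, h2, ← mul_assoc, h.lin_sq, smul_mul_assoc, one_mul]

end Top

end Pool.Agent.H488Z.Cliff
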