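import Pool.Agent.H488Z.Cliff.Alg

set_option autoImplicit false
set_option linter.unusedSectionVars false

namespace Pool.Agent.H488Z.Cliff

open Finset MeasureTheory

section An
variable {R : Type*} [NormedRing R] [NormedAlgebra ℝ R] [CompleteSpace R]

lemma hasDerivAt_powDer {X : ℝ → R} {Y : R} {t : ℝ} (h : HasDerivAt X Y t) (n : ℕ) :
    HasDerivAt (fun s => X s ^ n) (powDer (X t) Y n) t := by
  induction n with
  | zero => simpa [powDer] using hasDerivAt_const t (1 : R)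
  | succ n ih =>
    have := h.mul ih
    simp only [pow_succ']
    exact this

lemma continuousAt_powDer {T : Type*} [TopologicalSpace T] {X Y : T → R} {t : T}
    (hX : ContinuousAt X t) (hY : ContinuousAt Y t) (n : ℕ) :
    ContinuousAt (fun s => powDer (X s) (Y s) n) t := by
  induction n with
  | zero => simpa [powDer] using continuousAt_const
  | succ n ih =>
    simp only [powDer]
    exact (hY.mul (hX.pow n)).add (hX.mul ih)

variable {ι : Type*} [Fintype ι] [DecidableEq ι]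

lemma continuous_lin (g : ι → R) : Continuous (lin g) := by
  unfold lin
  fun_prop

lemma lin_add_single (g : ι → R) (x : ι → ℝ) (k : ι) (t : ℝ) :
    lin g (x + t • (Pi.single k (1 : ℝ) : ι → ℝ)) = lin g x + t • g k := by
  unfold lin
  simp only [Pi.add_apply, Pi.smul_apply, add_smul, Finset.sum_add_distrib, smul_eq_mul]
  congr 1
  rw [Finset.sum_eq_single k]
  · simp
  · intro j _ hj
    simp [Pi.single_eq_of_ne hj]
  · simp

lemma lin_smul (g : ι → R) (x : ι → ℝ) (c : ℝ) : lin g (c • x) = c • lin g x := by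
  unfold lin
  simp [Finset.smul_sum, smul_smul]

/-- The inverse of the localizer. -/
noncomputable def Gf (g : ι → R) (B : R) (x : ι → ℝ) : R := Ring.inverse (B - lin g x)

lemma hasDerivAt_Gf (g : ι → R) (B : R) (x : ι → ℝ) (hu : IsUnit (B - lin g x)) (k : ι) :
    HasDerivAt (fun t : ℝ => Gf g B (x + t • (Pi.single k (1 : ℝ) : ι → ℝ)))
      (Gf g B x * g k * Gf g B x) 0 := by
  obtain ⟨u, hu⟩ := hu
  have h1 : HasDerivAt (fun t : ℝ => B - lin g (x + t • (Pi.single k (1 : ℝ) : ι → ℝ)))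
      (-g k) 0 := by
    simp only [lin_add_single]
    have := (((hasDerivAt_id (0 : ℝ)).smul_const (g k)).const_add (lin g x)).const_sub B
    simpa using this
  have h2 := hasFDerivAt_ringInverse (𝕜 := ℝ) u
  have h3 : (u : R) = B - lin g (x + (0 : ℝ) • (Pi.single k (1 : ℝ) : ι → ℝ)) := by
    simp [hu]
  rw [h3] at h2
  have h4 := h2.comp_hasDerivAt (0 : ℝ) h1
  have h5 : Gf g B x = ((u⁻¹ : Rˣ) : R) := by
    unfold Gf
    rw [← hu, Ring.inverse_unit]
  rw [h5]
  have h6 : (-ContinuousLinearMap.mulLeftRight ℝ R ((u⁻¹ : Rˣ) : R) ((u⁻¹ : Rˣ) : R)) (-g k)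
      = ((u⁻¹ : Rˣ) : R) * g k * ((u⁻¹ : Rˣ) : R) := by simp
  rw [h6] at h4
  exact h4

lemma continuousAt_Gf {T : Type*} [TopologicalSpace T] (g : ι → R) {B : T → R} {x : T → ι → ℝ}
    {t : T} (hB : ContinuousAt B t) (hx : ContinuousAt x t) (hu : IsUnit (B t - lin g (x t))) :
    ContinuousAt (fun s => Gf g (B s) (x s)) t := by
  obtain ⟨u, hu⟩ := hu
  have h1 := NormedRing.inverse_continuousAt u
  rw [hu] at h1
  exact ContinuousAt.comp (f := fun s => B s - lin g (x s)) h1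
    (hB.sub ((continuous_lin g).continuousAt.comp hx))

/-- The hypotheses on the perturbation `B` and on the functional `τ`. -/
structure Hyp (g ψ : ι → R) (τ : R →L[ℝ] ℝ) (B : R) : Prop where
  pB : ∀ j, ψ j * B = B * ψ j
  tg : ∀ j r, τ (g j * r) = -τ (r * g j)
  tB : ∀ r, τ (B * r) = -τ (r * B)

variable {g ψ : ι → R} {τ : R →L[ℝ] ℝ} {B : R}

lemma Hyp.smul (h : Hyp g ψ τ B) (c : ℝ) : Hyp g ψ τ (c • B) where
  pB j := by rw [mul_smul_comm, smul_mul_assoc, h.pB]
  tg := h.tg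
  tB r := by rw [mul_smul_comm, smul_mul_assoc, map_smul, map_smul, h.tB, smul_neg]

lemma psi_Gf (hg : Gens g ψ) (h : Hyp g ψ τ B) {x : ι → ℝ} (hu : IsUnit (B - lin g x)) (k : ι) :
    ψ k * Gf g B x = Gf g B x * ψ k := by
  have h1 : ψ k * (B - lin g x) = (B - lin g x) * ψ k := by
    rw [mul_sub, sub_mul, h.pB, hg.psi_lin]
  have h2 := Ring.mul_inverse_cancel _ hu
  have h3 := Ring.inverse_mul_cancel _ hu
  unfold Gf
  calc ψ k * Ring.inverse (B - lin g x)
      = (Ring.inverse (B - lin g x) * (B - lin g x)) * ψ k * Ring.inverse (B - lin g x) := by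
        rw [h3, one_mul]
    _ = Ring.inverse (B - lin g x) * ψ k * ((B - lin g x) * Ring.inverse (B - lin g x)) := by
        rw [mul_assoc (Ring.inverse (B - lin g x)), ← h1]
        simp only [mul_assoc]
    _ = _ := by rw [h2, mul_one]

lemma tau_Gf (h : Hyp g ψ τ B) {x : ι → ℝ} (hu : IsUnit (B - lin g x)) (r : R) :
    τ (Gf g B x * r) = -τ (r * Gf g B x) := by
  have h1 : ∀ s, τ ((B - lin g x) * s) = -τ (s * (B - lin g x)) := by
    intro s
    rw [mul_sub, sub_mul, map_sub, map_sub, h.tB]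
    unfold lin
    rw [Finset.sum_mul, Finset.mul_sum, map_sum, map_sum]
    simp only [smul_mul_assoc, mul_smul_comm, map_smul, h.tg _ s, smul_neg,
      Finset.sum_neg_distrib]
    ring
  have h2 := Ring.mul_inverse_cancel _ hu
  have h3 := Ring.inverse_mul_cancel _ hu
  have h4 := h1 (Gf g B x * r * Gf g B x)
  unfold Gf at h4 ⊢
  rw [← mul_assoc, ← mul_assoc, h2, one_mul, mul_assoc _ _ (B - lin g x), h3, mul_one] at h4
  rw [h4, neg_neg]

/-- The matrix valued one-form `G θ`. -/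
noncomputable def Xf (g ψ : ι → R) (B : R) (x : ι → ℝ) : R := Gf g B x * theta g ψ

lemma psi_Xf (hg : Gens g ψ) (h : Hyp g ψ τ B) {x : ι → ℝ} (hu : IsUnit (B - lin g x)) (k : ι) :
    ψ k * Xf g ψ B x = -(Xf g ψ B x * ψ k) := by
  unfold Xf
  rw [← mul_assoc, psi_Gf hg h hu, mul_assoc, hg.psi_theta, mul_neg, mul_assoc]

lemma sum_psi_G (hg : Gens g ψ) (h : Hyp g ψ τ B) {x : ι → ℝ} (hu : IsUnit (B - lin g x)) :
    ∑ k, ψ k * (Gf g B x * g k) = Xf g ψ B x := by
  unfold Xf theta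
  rw [Finset.mul_sum]
  apply Finset.sum_congr rfl
  intro k _
  rw [← mul_assoc, psi_Gf hg h hu, mul_assoc]

lemma tau_Xf_pow (hg : Gens g ψ) (h : Hyp g ψ τ B) {x : ι → ℝ} (hu : IsUnit (B - lin g x))
    (m : ℕ) : τ (Xf g ψ B x ^ (2 * m + 1 + 1)) = 0 := by
  have h1 : τ (Xf g ψ B x ^ (2 * m + 1 + 1)) = -τ (Xf g ψ B x ^ (2 * m + 1 + 1)) := by
    conv_lhs => rw [pow_succ']
    conv_rhs => rw [pow_succ]
    set Z := Xf g ψ B x ^ (2 * m + 1) with hZ
    have hψZ : ∀ k, ψ k * Z = -(Z * ψ k) := fun k => anticomm_pow_odd (psi_Xf hg h hu k) m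
    rw [← sum_psi_G hg h hu, Finset.sum_mul, Finset.mul_sum, map_sum, map_sum,
      ← Finset.sum_neg_distrib]
    apply Finset.sum_congr rfl
    intro k _
    have e1 : ψ k * (Gf g B x * g k) * Z = Gf g B x * (g k * (ψ k * Z)) := by
      rw [← mul_assoc (ψ k), psi_Gf hg h hu, mul_assoc (Gf g B x), hg.comm]
      simp only [mul_assoc]
    rw [e1, tau_Gf h hu, mul_assoc, h.tg, neg_neg, hψZ]
    simp only [neg_mul, map_neg, mul_assoc]
  linarith

/-- The components of the closed form. -/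
noncomputable def Vf (τ : R →L[ℝ] ℝ) (g ψ : ι → R) (B : R) (n : ℕ) (k : ι) (x : ι → ℝ) : ℝ :=
  τ (ψ k * Xf g ψ B x ^ n)

/-- Their partial derivatives. -/
noncomputable def Wf (τ : R →L[ℝ] ℝ) (g ψ : ι → R) (B : R) (n : ℕ) (k : ι) (x : ι → ℝ) : ℝ :=
  τ (ψ k * powDer (Xf g ψ B x) (Gf g B x * g k * Xf g ψ B x) n)

lemma hasLineDerivAt_Vf {x : ι → ℝ} (hu : IsUnit (B - lin g x)) (n : ℕ) (k : ι) :
    HasLineDerivAt ℝ (Vf τ g ψ B n k) (Wf τ g ψ B n k x) x (Pi.single k (1 : ℝ)) := by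
  have h1 := (hasDerivAt_Gf g B x hu k).mul_const (theta g ψ)
  have h2 := (hasDerivAt_powDer h1 n).const_mul (ψ k)
  have h3 := τ.hasFDerivAt.comp_hasDerivAt (0 : ℝ) h2
  simp only [zero_smul, add_zero] at h3
  unfold HasLineDerivAt Vf Wf Xf
  rw [← mul_assoc (Gf g B x * g k)]
  exact h3

lemma sum_Wf (hg : Gens g ψ) (h : Hyp g ψ τ B) {x : ι → ℝ} (hu : IsUnit (B - lin g x)) (m : ℕ) :
    ∑ k, Wf τ g ψ B (2 * m + 1) k x = 0 := by
  unfold Wf
  rw [← map_sum]
  obtain ⟨c, hc⟩ := sum_powDer (Xf g ψ B x) ψ (fun k => Gf g B x * g k * Xf g ψ B x)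
    (psi_Xf hg h hu) (by
      simp only [← mul_assoc (ψ _)]
      rw [← Finset.sum_mul]
      simp only [mul_assoc]
      rw [sum_psi_G hg h hu]) (2 * m + 1)
  rw [hc, map_zsmul, tau_Xf_pow hg h hu, smul_zero]

lemma continuous_Xf (hu : ∀ x, IsUnit (B - lin g x)) : Continuous (Xf g ψ B) := by
  rw [continuous_iff_continuousAt]
  intro x
  exact (continuousAt_Gf g continuousAt_const continuousAt_id (hu x)).mul continuousAt_const

lemma continuous_Vf (hu : ∀ x, IsUnit (B - lin g x)) (n : ℕ) (k : ι) :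
    Continuous (Vf τ g ψ B n k) :=
  τ.continuous.comp (continuous_const.mul ((continuous_Xf hu).pow n))

lemma continuous_Wf (hu : ∀ x, IsUnit (B - lin g x)) (n : ℕ) (k : ι) :
    Continuous (Wf τ g ψ B n k) := by
  rw [continuous_iff_continuousAt]
  intro x
  have h1 := (continuous_Xf (ψ := ψ) hu).continuousAt (x := x)
  have h2 := continuousAt_Gf g (B := fun _ => B) (x := id) continuousAt_const continuousAt_id (hu x)
  exact τ.continuous.continuousAt.comp
    (continuousAt_const.mul (continuousAt_powDer h1 ((h2.mul continuousAt_const).mul h1) n))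

end An

end Pool.Agent.H488Z.Cliff
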