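import Pool.Agent.H488Z.Cliff.An

set_option autoImplicit false
set_option linter.unusedSectionVars false

namespace Pool.Agent.H488Z.Cliff

open Finset MeasureTheory

/-- A continuous bump supported in `[1, 2]`. -/
noncomputable def hb (t : ℝ) : ℝ := max 0 ((t - 1) * (2 - t))

lemma continuous_hb : Continuous hb := by
  unfold hb
  fun_prop

lemma hb_nonneg (t : ℝ) : 0 ≤ hb t := le_max_left _ _

lemma hb_of_le_one {t : ℝ} (h : t ≤ 1) : hb t = 0 := by
  unfold hb
  apply max_eq_left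
  nlinarith

lemma hb_of_two_le {t : ℝ} (h : 2 ≤ t) : hb t = 0 := by
  unfold hb
  apply max_eq_left
  nlinarith

/-- Its primitive vanishing on `[2, ∞)`. -/
noncomputable def Fb (t : ℝ) : ℝ := ∫ s in (2 : ℝ)..t, hb s

lemma hasDerivAt_Fb (t : ℝ) : HasDerivAt Fb (hb t) t :=
  (continuous_hb.integral_hasStrictDerivAt 2 t).hasDerivAt

lemma continuous_Fb : Continuous Fb :=
  continuous_iff_continuousAt.2 fun t => (hasDerivAt_Fb t).continuousAt

lemma Fb_of_two_le {t : ℝ} (h : 2 ≤ t) : Fb t = 0 := by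
  unfold Fb
  rw [intervalIntegral.integral_congr (g := fun _ => (0 : ℝ))]
  · simp
  · intro s hs
    rw [Set.uIcc_of_le h] at hs
    exact hb_of_two_le hs.1

section Int
variable {ι : Type*} [Fintype ι] [DecidableEq ι]

/-- The squared Euclidean norm. -/
def rsq (x : ι → ℝ) : ℝ := ∑ j, x j ^ 2

lemma continuous_rsq : Continuous (rsq : (ι → ℝ) → ℝ) := by
  unfold rsq
  fun_prop

lemma two_le_rsq {x : ι → ℝ} (h : x ∉ Metric.closedBall (0 : ι → ℝ) 2) : 2 ≤ rsq x := by
  by_contra h2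
  apply h
  rw [mem_closedBall_zero_iff, pi_norm_le_iff_of_nonneg (by norm_num)]
  intro i
  have h3 : x i ^ 2 ≤ rsq x :=
    Finset.single_le_sum (f := fun j => x j ^ 2) (fun j _ => sq_nonneg _) (Finset.mem_univ i)
  rw [Real.norm_eq_abs, abs_le]
  constructor <;> nlinarith

lemma hasLineDerivAt_phi (x : ι → ℝ) (k : ι) :
    HasLineDerivAt ℝ (fun y => Fb (rsq y)) (hb (rsq x) * (2 * x k)) x (Pi.single k (1 : ℝ)) := by
  have h1 : HasDerivAt (fun t : ℝ => rsq (x + t • (Pi.single k (1 : ℝ) : ι → ℝ))) (2 * x k) 0 := by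
    unfold rsq
    have h2 : ∀ j ∈ (Finset.univ : Finset ι), HasDerivAt
        (fun t : ℝ => (x + t • (Pi.single k (1 : ℝ) : ι → ℝ)) j ^ 2)
        (2 * x j * (Pi.single k (1 : ℝ) : ι → ℝ) j) 0 := by
      intro j _
      have h3 := ((((hasDerivAt_id (0 : ℝ)).mul_const
        ((Pi.single k (1 : ℝ) : ι → ℝ) j)).const_add (x j)).fun_pow 2)
      simpa using h3
    have h4 := HasDerivAt.fun_sum h2
    have h5 : ∑ j, 2 * x j * (Pi.single k (1 : ℝ) : ι → ℝ) j = 2 * x k := by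
      rw [Finset.sum_eq_single k]
      · simp
      · intro j _ hj
        simp [Pi.single_eq_of_ne hj]
      · simp
    rw [h5] at h4
    exact h4
  have h5 := hasDerivAt_Fb (rsq (x + (0 : ℝ) • (Pi.single k (1 : ℝ) : ι → ℝ)))
  have h6 := h5.comp (0 : ℝ) h1
  simp only [zero_smul, add_zero] at h6
  exact h6

lemma integrable_of_supp {f : (ι → ℝ) → ℝ} (hf : Continuous f)
    (h0 : ∀ x, 2 ≤ rsq x → f x = 0) : Integrable f := by
  apply hf.integrable_of_hasCompactSupport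
  exact HasCompactSupport.intro (isCompact_closedBall (0 : ι → ℝ) 2)
    (fun x hx => h0 x (two_le_rsq hx))

lemma integral_div_zero (V W : ι → (ι → ℝ) → ℝ) (hV : ∀ k, Continuous (V k))
    (hW : ∀ k, Continuous (W k))
    (hd : ∀ k x, HasLineDerivAt ℝ (V k) (W k x) x (Pi.single k (1 : ℝ)))
    (hs : ∀ x, ∑ k, W k x = 0) :
    ∫ x, hb (rsq x) * ∑ k, x k * V k x = 0 := by
  have hc1 : Continuous fun x : ι → ℝ => hb (rsq x) := continuous_hb.comp continuous_rsq
  have hc2 : Continuous fun x : ι → ℝ => Fb (rsq x) := continuous_Fb.comp continuous_rsq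
  have i1 : ∀ k, Integrable fun x : ι → ℝ => hb (rsq x) * (2 * x k) * V k x := by
    intro k
    apply integrable_of_supp
    · exact (hc1.mul (continuous_const.mul (continuous_apply k))).mul (hV k)
    · intro x hx
      simp [hb_of_two_le hx]
  have i2 : ∀ k, Integrable fun x : ι → ℝ => Fb (rsq x) * W k x := by
    intro k
    apply integrable_of_supp (hc2.mul (hW k))
    intro x hx
    simp [Fb_of_two_le hx]
  have i3 : ∀ k, Integrable fun x : ι → ℝ => Fb (rsq x) * V k x := by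
    intro k
    apply integrable_of_supp (hc2.mul (hV k))
    intro x hx
    simp [Fb_of_two_le hx]
  have key : ∀ k, ∫ x, Fb (rsq x) * W k x = -∫ x, hb (rsq x) * (2 * x k) * V k x := by
    intro k
    exact integral_bilinear_hasLineDerivAt_right_eq_neg_left_of_integrable
      (B := ContinuousLinearMap.mul ℝ ℝ) (μ := volume) (i1 k) (i2 k) (i3 k)
      (fun x _ => hasLineDerivAt_phi x k) (fun x _ => hd k x)
  have h1 : ∑ k, ∫ x, Fb (rsq x) * W k x = 0 := by
    rw [← integral_finsetSum _ (fun k _ => i2 k)]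
    simp only [← Finset.mul_sum, hs, mul_zero, integral_zero]
  simp only [key, Finset.sum_neg_distrib, neg_eq_zero] at h1
  rw [← integral_finsetSum _ (fun k _ => i1 k)] at h1
  have h2 : ∀ x : ι → ℝ, ∑ k, hb (rsq x) * (2 * x k) * V k x
      = 2 * (hb (rsq x) * ∑ k, x k * V k x) := by
    intro x
    rw [Finset.mul_sum, Finset.mul_sum]
    apply Finset.sum_congr rfl
    intro k _
    ring
  simp only [h2, integral_const_mul] at h1
  linarith

variable {R : Type*} [NormedRing R] [NormedAlgebra ℝ R] [CompleteSpace R]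
variable {g ψ : ι → R} {τ : R →L[ℝ] ℝ} {B : R}

/-- The integrand. -/
noncomputable def Phi (τ : R →L[ℝ] ℝ) (g ψ : ι → R) (n : ℕ) (B : R) (x : ι → ℝ) : ℝ :=
  hb (rsq x) * τ (lin ψ x * Xf g ψ B x ^ n)

lemma integral_Phi (hg : Gens g ψ) (h : Hyp g ψ τ B) (hu : ∀ x, IsUnit (B - lin g x)) (m : ℕ) :
    ∫ x, Phi τ g ψ (2 * m + 1) B x = 0 := by
  have h1 := integral_div_zero (Vf τ g ψ B (2 * m + 1)) (Wf τ g ψ B (2 * m + 1))
    (continuous_Vf hu _) (continuous_Wf hu _) (fun k x => hasLineDerivAt_Vf (hu x) _ k)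
    (fun x => sum_Wf hg h (hu x) m)
  rw [← h1]
  congr 1
  funext x
  unfold Phi Vf lin
  rw [Finset.sum_mul, map_sum]
  simp only [smul_mul_assoc, map_smul, smul_eq_mul]

lemma inverse_neg_lin (hg : Gens g ψ) {x : ι → ℝ} (hx : rsq x ≠ 0) :
    IsUnit ((0 : R) - lin g x) ∧ Gf g 0 x = (-(rsq x)⁻¹) • lin g x := by
  have h1 : lin g x * lin g x = rsq x • (1 : R) := hg.lin_sq x
  have e1 : ((0 : R) - lin g x) * ((-(rsq x)⁻¹) • lin g x) = 1 := by
    rw [zero_sub, neg_mul, mul_smul_comm, h1, smul_smul, neg_mul, inv_mul_cancel₀ hx]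
    simp
  have e2 : ((-(rsq x)⁻¹) • lin g x) * ((0 : R) - lin g x) = 1 := by
    rw [zero_sub, mul_neg, smul_mul_assoc, h1, smul_smul, neg_mul, inv_mul_cancel₀ hx]
    simp
  let u : Rˣ := ⟨_, _, e1, e2⟩
  refine ⟨⟨u, rfl⟩, ?_⟩
  unfold Gf
  exact Ring.inverse_unit u

lemma isUnit_smul_sub (hu : ∀ x, IsUnit (B - lin g x)) {c : ℝ} (hc : c ≠ 0) (x : ι → ℝ) :
    IsUnit (c • B - lin g x) := by
  have h1 : c • B - lin g x = c • (B - lin g (c⁻¹ • x)) := by
    rw [lin_smul, smul_sub, smul_smul, mul_inv_cancel₀ hc, one_smul]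
  rw [h1, Algebra.smul_def]
  exact ((IsUnit.mk0 c hc).map (algebraMap ℝ R)).mul (hu _)

lemma continuous_Phi (hg : Gens g ψ) (hu : ∀ x, IsUnit (B - lin g x)) (n : ℕ) :
    Continuous fun p : ℝ × (ι → ℝ) => Phi τ g ψ n (p.1 • B) p.2 := by
  rw [continuous_iff_continuousAt]
  intro p
  by_cases hp : rsq p.2 < 1
  · have h1 : ∀ᶠ q : ℝ × (ι → ℝ) in nhds p, rsq q.2 < 1 :=
      (continuous_rsq.comp continuous_snd).continuousAt.eventually (gt_mem_nhds hp)
    apply (continuousAt_const (y := (0 : ℝ))).congr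
    filter_upwards [h1] with q hq
    simp [Phi, hb_of_le_one hq.le]
  · have h1 : IsUnit (p.1 • B - lin g p.2) := by
      by_cases hc : p.1 = 0
      · rw [hc, zero_smul]
        exact (inverse_neg_lin hg (by intro h0; rw [h0] at hp; norm_num at hp)).1
      · exact isUnit_smul_sub hu hc _
    have h2 : ContinuousAt (fun q : ℝ × (ι → ℝ) => Gf g (q.1 • B) q.2) p :=
      continuousAt_Gf g (B := fun q : ℝ × (ι → ℝ) => q.1 • B) (x := fun q => q.2)
        (continuous_fst.smul continuous_const).continuousAt continuous_snd.continuousAt h1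
    unfold Phi Xf
    exact (continuous_hb.comp (continuous_rsq.comp continuous_snd)).continuousAt.mul
      (τ.continuous.continuousAt.comp (((continuous_lin ψ).comp continuous_snd).continuousAt.mul
        ((h2.mul continuousAt_const).pow n)))

lemma integral_Phi_zero (hg : Gens g ψ) (h : Hyp g ψ τ B) (hu : ∀ x, IsUnit (B - lin g x))
    (m : ℕ) : ∫ x, Phi τ g ψ (2 * m + 1) 0 x = 0 := by
  have hK := isCompact_closedBall (0 : ι → ℝ) 2
  have h1 : Continuous fun c : ℝ =>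
      ∫ x in Metric.closedBall (0 : ι → ℝ) 2, Phi τ g ψ (2 * m + 1) (c • B) x :=
    continuous_parametric_integral_of_continuous (μ := volume)
      (f := fun (c : ℝ) (x : ι → ℝ) => Phi τ g ψ (2 * m + 1) (c • B) x)
      (continuous_Phi hg hu _) hK
  have h2 : ∀ c : ℝ, ∫ x in Metric.closedBall (0 : ι → ℝ) 2, Phi τ g ψ (2 * m + 1) (c • B) x
      = ∫ x, Phi τ g ψ (2 * m + 1) (c • B) x := by
    intro c
    apply setIntegral_eq_integral_of_forall_compl_eq_zero
    intro x hx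
    simp [Phi, hb_of_two_le (two_le_rsq hx)]
  simp only [h2] at h1
  have h3 := Continuous.ext_on (dense_compl_singleton (0 : ℝ)) h1 (continuous_const (y := (0 : ℝ)))
    (fun c hc => integral_Phi hg (h.smul c) (isUnit_smul_sub hu hc) m)
  have h4 := congrFun h3 0
  simpa using h4

end Int

section Main
variable {R : Type*} [NormedRing R] [NormedAlgebra ℝ R] [CompleteSpace R] {m : ℕ}
variable {g ψ : Fin (2 * m + 1 + 1) → R} {τ : R →L[ℝ] ℝ} {B : R}

lemma Phi_zero_eq (hg : Gens g ψ) {x : Fin (2 * m + 1 + 1) → ℝ} (hx : rsq x ≠ 0) :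
    Phi τ g ψ (2 * m + 1) 0 x * ((-1) ^ (m + 1) * τ (theta g ψ ^ (2 * m + 1 + 1)))
      = hb (rsq x) * ((rsq x)⁻¹ ^ m / ((2 * m + 1 + 1 : ℕ) : ℝ))
        * τ (theta g ψ ^ (2 * m + 1 + 1)) ^ 2 := by
  have h1 := hg.alpha_pow_odd x m
  have h2 := congrArg τ (hg.top x)
  unfold Phi Xf
  rw [(inverse_neg_lin hg hx).2, smul_mul_assoc, smul_pow, mul_smul_comm, h1, map_smul, map_smul]
  rw [map_smul, map_smul] at h2
  change _ = rsq x • _ at h2
  change hb (rsq x) * (_ • (-rsq x) ^ m • _) * _ = _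
  simp only [smul_eq_mul] at h2 ⊢
  have hn : ((2 * m + 1 + 1 : ℕ) : ℝ) ≠ 0 := by positivity
  have h3 : τ (lin g x * (lin ψ x * theta g ψ ^ (2 * m + 1)))
      = rsq x * τ (theta g ψ ^ (2 * m + 1 + 1)) / ((2 * m + 1 + 1 : ℕ) : ℝ) := by
    rw [eq_div_iff hn, ← h2]; ring
  rw [h3]
  have h4 : (-(rsq x)⁻¹) ^ (2 * m + 1) * (-rsq x) ^ m * rsq x * (-1) ^ (m + 1)
      = (rsq x)⁻¹ ^ m := by
    have e1 : (-(rsq x)⁻¹) ^ (2 * m + 1) = -((rsq x)⁻¹ ^ m * (rsq x)⁻¹ ^ m * (rsq x)⁻¹) := by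
      rw [Odd.neg_pow ⟨m, rfl⟩]; ring
    have e2 : (-rsq x) ^ m * (-1) ^ m = rsq x ^ m := by rw [← mul_pow]; simp
    have e3 : (rsq x)⁻¹ ^ m * rsq x ^ m = 1 := by rw [← mul_pow, inv_mul_cancel₀ hx, one_pow]
    have e4 : (rsq x)⁻¹ * rsq x = 1 := inv_mul_cancel₀ hx
    rw [e1]
    calc _ = (rsq x)⁻¹ ^ m * ((rsq x)⁻¹ ^ m * ((-rsq x) ^ m * (-1) ^ m))
        * ((rsq x)⁻¹ * rsq x) := by ring
      _ = _ := by rw [e2, e3, e4]; ring
  rw [← h4]
  ring

theorem abstract_main (hg : Gens g ψ) (h : Hyp g ψ τ B)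
    (ht : τ (theta g ψ ^ (2 * m + 1 + 1)) ≠ 0) : ∃ x, ¬ IsUnit (B - lin g x) := by
  by_contra hcon
  push Not at hcon
  have h1 := integral_Phi_zero hg h hcon m
  set s : ℝ := (-1) ^ (m + 1) * τ (theta g ψ ^ (2 * m + 1 + 1)) with hs
  have hc : Continuous fun x => Phi τ g ψ (2 * m + 1) 0 x * s := by
    have h2 := (continuous_Phi (τ := τ) hg hcon (2 * m + 1)).comp
      (continuous_const (y := (0 : ℝ)).prodMk continuous_id)
    have h3 : Continuous fun x => Phi τ g ψ (2 * m + 1) 0 x := by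
      simpa [Function.comp_def] using h2
    exact h3.mul continuous_const
  have hnn : ∀ x, 0 ≤ Phi τ g ψ (2 * m + 1) 0 x * s := by
    intro x
    by_cases hx : rsq x = 0
    · simp [Phi, hx, hb_of_le_one]
    · rw [Phi_zero_eq hg hx]
      have h0 : 0 ≤ rsq x := Finset.sum_nonneg fun j _ => sq_nonneg _
      have := hb_nonneg (rsq x)
      positivity
  have hsupp : HasCompactSupport fun x => Phi τ g ψ (2 * m + 1) 0 x * s :=
    HasCompactSupport.intro (isCompact_closedBall (0 : Fin (2 * m + 1 + 1) → ℝ) 2)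
      (fun x hx => by simp [Phi, hb_of_two_le (two_le_rsq hx)])
  let x0 : Fin (2 * m + 1 + 1) → ℝ := Pi.single 0 (5 / 4)
  have hx0 : rsq x0 = 25 / 16 := by
    unfold rsq
    rw [Finset.sum_eq_single 0]
    · simp [x0]; norm_num
    · intro j _ hj
      simp [x0, Pi.single_eq_of_ne hj]
    · simp
  have hne : Phi τ g ψ (2 * m + 1) 0 x0 * s ≠ 0 := by
    rw [Phi_zero_eq hg (by rw [hx0]; norm_num), hx0]
    have : hb (25 / 16) ≠ 0 := by
      unfold hb
      rw [max_eq_right (by norm_num)]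
      norm_num
    positivity
  have hpos := hc.integral_pos_of_hasCompactSupport_nonneg_nonzero (μ := volume) hsupp hnn hne
  rw [integral_mul_const, h1, zero_mul] at hpos
  exact lt_irrefl _ hpos

end Main

end Pool.Agent.H488Z.Cliff
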