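import Pool.Agent.H488Z.Cliff.Int

set_option autoImplicit false
set_option linter.unusedSectionVars false

namespace Pool.Agent.H488Z.Cliff

open Finset Matrix
open scoped Kronecker

theorem abstract_fin {R : Type*} [NormedRing R] [NormedAlgebra ℝ R] [FiniteDimensional ℝ R]
    {m : ℕ} {g ψ : Fin (2 * m + 1 + 1) → R} (τ : R →ₗ[ℝ] ℝ) {B : R} (hg : Gens g ψ)
    (pB : ∀ j, ψ j * B = B * ψ j) (tg : ∀ j r, τ (g j * r) = -τ (r * g j))
    (tB : ∀ r, τ (B * r) = -τ (r * B))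
    (ht : τ (theta g ψ ^ (2 * m + 1 + 1)) ≠ 0) : ∃ x, ¬ IsUnit (B - lin g x) := by
  have : CompleteSpace R := FiniteDimensional.complete ℝ R
  exact abstract_main (τ := LinearMap.toContinuousLinearMap τ) hg ⟨pB, tg, tB⟩ ht

lemma prod_ofFn_kron {N F : Type} [Fintype N] [DecidableEq N] [Fintype F] [DecidableEq F] :
    ∀ {d : ℕ} (A : Fin d → Matrix N N ℂ) (C : Fin d → Matrix F F ℂ),
      (List.ofFn fun j => A j ⊗ₖ C j).prod = (List.ofFn A).prod ⊗ₖ (List.ofFn C).prod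
  | 0, A, C => by simp
  | d + 1, A, C => by
    simp only [List.ofFn_succ, List.prod_cons]
    rw [prod_ofFn_kron, Matrix.mul_kronecker_mul]

lemma kron_neg {N F : Type} (A : Matrix N N ℂ) (C : Matrix F F ℂ) : A ⊗ₖ (-C) = -(A ⊗ₖ C) := by
  ext ⟨i, j⟩ ⟨k, l⟩
  simp [Matrix.kroneckerMap_apply]

lemma neg_kron {N F : Type} (A : Matrix N N ℂ) (C : Matrix F F ℂ) : (-A) ⊗ₖ C = -(A ⊗ₖ C) := by
  ext ⟨i, j⟩ ⟨k, l⟩
  simp [Matrix.kroneckerMap_apply]

lemma exists_grassmann (d : ℕ) : ∃ (F : Type) (_ : Fintype F) (_ : DecidableEq F)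
    (ψ : Fin d → Matrix F F ℂ) (S : Matrix F F ℂ), S * S = 1 ∧ (∀ j, S * ψ j = -(ψ j * S)) ∧
      (∀ j, ψ j * ψ j = 0) ∧ (∀ j k, ψ j * ψ k = -(ψ k * ψ j)) ∧ (List.ofFn ψ).prod ≠ 0 := by
  induction d with
  | zero =>
    exact ⟨Unit, inferInstance, inferInstance, Fin.elim0, 1, by simp, fun j => j.elim0,
      fun j => j.elim0, fun j => j.elim0, by simp⟩
  | succ d ih =>
    obtain ⟨F, i1, i2, ψ, S, h1, h2, h3, h4, h5⟩ := ih
    let a : Matrix (Fin 2) (Fin 2) ℂ := !![0, 1; 0, 0]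
    let z : Matrix (Fin 2) (Fin 2) ℂ := !![1, 0; 0, -1]
    have aa : a * a = 0 := by
      ext i j; fin_cases i <;> fin_cases j <;> simp [a, Matrix.mul_apply, Fin.sum_univ_two]
    have zz : z * z = 1 := by
      ext i j; fin_cases i <;> fin_cases j <;> simp [z, Matrix.mul_apply, Fin.sum_univ_two]
    have za : z * a = -(a * z) := by
      ext i j; fin_cases i <;> fin_cases j <;> simp [z, a, Matrix.mul_apply, Fin.sum_univ_two]
    have h2' : ∀ j, ψ j * S = -(S * ψ j) := fun j => by rw [h2, neg_neg]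
    refine ⟨F × Fin 2, inferInstance, inferInstance,
      Fin.cons (S ⊗ₖ a) (fun j => ψ j ⊗ₖ (1 : Matrix (Fin 2) (Fin 2) ℂ)), S ⊗ₖ z, ?_, ?_, ?_, ?_,
      ?_⟩
    · rw [← Matrix.mul_kronecker_mul, h1, zz, Matrix.one_kronecker_one]
    · intro j
      refine Fin.cases ?_ (fun j => ?_) j
      · simp only [Fin.cons_zero, ← Matrix.mul_kronecker_mul, za, kron_neg]
      · simp only [Fin.cons_succ, ← Matrix.mul_kronecker_mul, h2, neg_kron, mul_one, one_mul]
    · intro j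
      refine Fin.cases ?_ (fun j => ?_) j
      · simp only [Fin.cons_zero, ← Matrix.mul_kronecker_mul, aa, Matrix.kronecker_zero]
      · simp only [Fin.cons_succ, ← Matrix.mul_kronecker_mul, h3, Matrix.zero_kronecker]
    · intro j k
      refine Fin.cases ?_ (fun j => ?_) j <;> refine Fin.cases ?_ (fun k => ?_) k
      · simp only [Fin.cons_zero, ← Matrix.mul_kronecker_mul, aa, Matrix.kronecker_zero, neg_zero]
      · simp only [Fin.cons_zero, Fin.cons_succ, ← Matrix.mul_kronecker_mul, h2, neg_kron,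
          mul_one, one_mul]
      · simp only [Fin.cons_zero, Fin.cons_succ, ← Matrix.mul_kronecker_mul, h2, neg_kron,
          mul_one, one_mul, neg_neg]
      · simp only [Fin.cons_succ, ← Matrix.mul_kronecker_mul, mul_one]
        rw [h4 j k, neg_kron]
    · simp only [List.ofFn_succ, List.prod_cons, Fin.cons_zero, Fin.cons_succ]
      rw [prod_ofFn_kron, ← Matrix.mul_kronecker_mul]
      have e1 : (List.ofFn fun _ : Fin d => (1 : Matrix (Fin 2) (Fin 2) ℂ)).prod = 1 := by simp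
      rw [e1, mul_one]
      intro h0
      apply h5
      have e2 : S * (List.ofFn ψ).prod = 0 := by
        ext i j
        have := congrFun (congrFun h0 (i, 0)) (j, 1)
        simpa [Matrix.kroneckerMap_apply, a] using this
      rw [← one_mul (List.ofFn ψ).prod, ← h1, mul_assoc, e2, mul_zero]

lemma anti_prod {R : Type*} [Ring R] (a : R) :
    ∀ {d : ℕ} (g : Fin d → R), (∀ j, a * g j = -(g j * a)) →
      a * (List.ofFn g).prod = (-1) ^ d * ((List.ofFn g).prod * a)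
  | 0, g, _ => by simp
  | d + 1, g, h => by
    simp only [List.ofFn_succ, List.prod_cons]
    rw [← mul_assoc, h 0, neg_mul, mul_assoc, anti_prod a _ (fun j => h j.succ), pow_succ,
      ← mul_assoc (g 0), ((Commute.neg_one_right (g 0)).pow_right d).eq]
    noncomm_ring

lemma gen_prod {R : Type*} [Ring R] :
    ∀ {d : ℕ} (g : Fin d → R), (∀ j k, j ≠ k → g j * g k = -(g k * g j)) → ∀ j,
      g j * (List.ofFn g).prod = (-1) ^ (d + 1) * ((List.ofFn g).prod * g j)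
  | 0, _, _, j => j.elim0
  | d + 1, g, h, j => by
    simp only [List.ofFn_succ, List.prod_cons]
    refine Fin.cases ?_ (fun i => ?_) j
    · have e := anti_prod (g 0) (fun i : Fin d => g i.succ)
        (fun i => h _ _ (Fin.succ_ne_zero i).symm)
      conv_lhs => rw [e]
      rw [← mul_assoc (g 0), ((Commute.neg_one_right (g 0)).pow_right d).eq, pow_succ, pow_succ]
      noncomm_ring
    · have ih := gen_prod (fun i : Fin d => g i.succ)
        (fun j k hjk => h _ _ (fun e => hjk (Fin.succ_injective _ e))) i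
      rw [← mul_assoc, h _ _ (Fin.succ_ne_zero i), neg_mul, mul_assoc, ih, pow_succ _ (d + 1),
        ← mul_assoc (g 0), ((Commute.neg_one_right (g 0)).pow_right (d + 1)).eq]
      noncomm_ring

lemma exists_trace_one {F : Type} [Fintype F] [DecidableEq F] {P : Matrix F F ℂ} (hP : P ≠ 0) :
    ∃ c : Matrix F F ℂ, (c * P).trace = 1 := by
  obtain ⟨i, j, hij⟩ : ∃ i j, P i j ≠ 0 := by
    by_contra h
    push Not at h
    exact hP (Matrix.ext h)
  refine ⟨Matrix.single j i (P i j)⁻¹, ?_⟩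
  rw [Matrix.trace_single_mul]
  simp [inv_mul_cancel₀ hij]

lemma lin_kron {N F ι : Type} [Fintype N] [DecidableEq N] [Fintype F] [DecidableEq F] [Fintype ι]
    (g : ι → Matrix N N ℂ) (C : Matrix F F ℂ) (x : ι → ℝ) :
    lin (fun j => g j ⊗ₖ C) x = lin g x ⊗ₖ C := by
  ext ⟨i, j⟩ ⟨k, l⟩
  simp [lin, Matrix.kroneckerMap_apply, Matrix.sum_apply, Finset.sum_mul, mul_assoc]

lemma sub_kron {N F : Type} (A A' : Matrix N N ℂ) (C : Matrix F F ℂ) :
    (A - A') ⊗ₖ C = A ⊗ₖ C - A' ⊗ₖ C := by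
  ext ⟨i, j⟩ ⟨k, l⟩
  simp [Matrix.kroneckerMap_apply, sub_mul]

theorem matrix_even {N : Type} [Fintype N] [DecidableEq N] [Nonempty N] {m : ℕ}
    (g a : Fin (2 * m + 1 + 1) → Matrix N N ℂ) (hsq : ∀ j, g j * g j = 1)
    (hanti : ∀ j k, j ≠ k → g j * g k = -(g k * g j)) (ha : ∀ j k, a j * g k = g k * a j) :
    ∃ x, ¬ IsUnit (∑ j, a j * g j - lin g x) := by
  obtain ⟨F, i1, i2, ψ, S, -, -, h3, h4, h5⟩ := exists_grassmann (2 * m + 1 + 1)
  obtain ⟨c, hc⟩ := exists_trace_one h5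
  have hP : IsUnit (List.ofFn g).prod := by
    apply List.prod_isUnit
    intro b hb
    obtain ⟨j, rfl⟩ := List.mem_ofFn.1 hb
    exact ⟨⟨g j, g j, hsq j, hsq j⟩, rfl⟩
  obtain ⟨u, hu⟩ := hP
  have hug : ∀ j, g j * (u : Matrix N N ℂ) = -((u : Matrix N N ℂ) * g j) := by
    intro j
    rw [hu, gen_prod g hanti j, Odd.neg_one_pow ⟨m + 1, by ring⟩, neg_one_mul]
  have hua : ∀ j, Commute (a j) (u : Matrix N N ℂ) := by
    intro j
    rw [hu]
    apply Commute.list_prod_right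
    intro b hb
    obtain ⟨k, rfl⟩ := List.mem_ofFn.1 hb
    exact ha j k
  set B := ∑ j, a j * g j with hB
  have huB : B * (u : Matrix N N ℂ) = -((u : Matrix N N ℂ) * B) := by
    rw [hB, Finset.sum_mul, Finset.mul_sum, ← Finset.sum_neg_distrib]
    apply Finset.sum_congr rfl
    intro j _
    rw [mul_assoc, hug, mul_neg, ← mul_assoc, (hua j).eq, mul_assoc]
  set Γ : Matrix N N ℂ := ((u⁻¹ : (Matrix N N ℂ)ˣ) : Matrix N N ℂ) with hΓ
  have hinv : ∀ b : Matrix N N ℂ, b * (u : Matrix N N ℂ) = -((u : Matrix N N ℂ) * b) →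
      Γ * b = -(b * Γ) := by
    intro b hb
    have e1 : Γ * (u : Matrix N N ℂ) = 1 := u.inv_mul
    have e2 : (u : Matrix N N ℂ) * Γ = 1 := u.mul_inv
    calc Γ * b = Γ * (b * (u : Matrix N N ℂ)) * Γ := by
          rw [mul_assoc, mul_assoc, e2, mul_one]
      _ = -(b * Γ) := by
          rw [hb, mul_neg, ← mul_assoc, e1, one_mul, neg_mul]
  let τ : Matrix (N × F) (N × F) ℂ →ₗ[ℝ] ℝ :=
    { toFun := fun r => ((Γ ⊗ₖ c) * r).trace.re
      map_add' := fun r s => by rw [mul_add, Matrix.trace_add, Complex.add_re]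
      map_smul' := fun t r => by
        rw [mul_smul_comm, Matrix.trace_smul, Complex.smul_re]; rfl }
  have hτ : ∀ b : Matrix N N ℂ, Γ * b = -(b * Γ) → ∀ r,
      τ ((b ⊗ₖ (1 : Matrix F F ℂ)) * r) = -τ (r * (b ⊗ₖ (1 : Matrix F F ℂ))) := by
    intro b hb r
    show ((Γ ⊗ₖ c) * ((b ⊗ₖ (1 : Matrix F F ℂ)) * r)).trace.re
      = -((Γ ⊗ₖ c) * (r * (b ⊗ₖ (1 : Matrix F F ℂ)))).trace.re
    rw [← mul_assoc (Γ ⊗ₖ c) r, Matrix.trace_mul_comm _ (b ⊗ₖ (1 : Matrix F F ℂ)), ← mul_assoc,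
      ← mul_assoc, ← Matrix.mul_kronecker_mul, ← Matrix.mul_kronecker_mul, hb, neg_kron, mul_one,
      one_mul, neg_mul, Matrix.trace_neg, Complex.neg_re]
  have hg : Gens (fun j => g j ⊗ₖ (1 : Matrix F F ℂ)) (fun j => (1 : Matrix N N ℂ) ⊗ₖ ψ j) := by
    refine ⟨fun j => ?_, fun j k hjk => ?_, fun j => ?_, fun j k => ?_, fun j k => ?_⟩
    · rw [← Matrix.mul_kronecker_mul, hsq, mul_one, Matrix.one_kronecker_one]
    · rw [← Matrix.mul_kronecker_mul, ← Matrix.mul_kronecker_mul, hanti j k hjk, neg_kron]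
    · rw [← Matrix.mul_kronecker_mul, h3, Matrix.kronecker_zero]
    · rw [← Matrix.mul_kronecker_mul, ← Matrix.mul_kronecker_mul, h4 j k, kron_neg]
    · rw [← Matrix.mul_kronecker_mul, ← Matrix.mul_kronecker_mul, mul_one, one_mul, mul_one,
        one_mul]
  have ht : τ (theta (fun j => g j ⊗ₖ (1 : Matrix F F ℂ))
      (fun j => (1 : Matrix N N ℂ) ⊗ₖ ψ j) ^ (2 * m + 1 + 1)) ≠ 0 := by
    have e1 := (list_sum_pow (List.ofFn fun j => ((1 : Matrix N N ℂ) ⊗ₖ ψ j) *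
      (g j ⊗ₖ (1 : Matrix F F ℂ))) (by
        intro p hp q hq
        obtain ⟨i, rfl⟩ := List.mem_ofFn.1 hp
        obtain ⟨j, rfl⟩ := List.mem_ofFn.1 hq
        exact hg.eta_comm i j) (by
        intro p hp
        obtain ⟨i, rfl⟩ := List.mem_ofFn.1 hp
        exact hg.eta_sq i)).1
    rw [List.sum_ofFn, List.length_ofFn] at e1
    unfold theta
    rw [e1]
    simp only [← Matrix.mul_kronecker_mul, mul_one, one_mul]
    rw [prod_ofFn_kron, ← nsmul_eq_mul, map_nsmul, ← hu]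
    have e2 : τ ((u : Matrix N N ℂ) ⊗ₖ (List.ofFn ψ).prod) = Fintype.card N := by
      show ((Γ ⊗ₖ c) * ((u : Matrix N N ℂ) ⊗ₖ (List.ofFn ψ).prod)).trace.re = _
      rw [← Matrix.mul_kronecker_mul, Matrix.trace_kronecker, hc, hΓ, u.inv_mul, Matrix.trace_one]
      simp
    rw [e2, nsmul_eq_mul]
    have : 0 < Fintype.card N := Fintype.card_pos
    positivity
  let _ : NormedRing (Matrix (N × F) (N × F) ℂ) := Matrix.linftyOpNormedRing
  let _ : NormedAlgebra ℝ (Matrix (N × F) (N × F) ℂ) := Matrix.linftyOpNormedAlgebra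
  obtain ⟨x, hx⟩ := abstract_fin (B := B ⊗ₖ (1 : Matrix F F ℂ)) τ hg
    (fun j => by
      rw [← Matrix.mul_kronecker_mul, ← Matrix.mul_kronecker_mul, mul_one, one_mul, mul_one,
        one_mul])
    (fun j r => hτ _ (hinv _ (hug j)) r) (fun r => hτ _ (hinv _ huB) r) ht
  refine ⟨x, fun hun => hx ?_⟩
  rw [lin_kron, ← sub_kron]
  obtain ⟨v, hv⟩ := hun
  rw [← hv]
  refine ⟨⟨(v : Matrix N N ℂ) ⊗ₖ (1 : Matrix F F ℂ),
    ((v⁻¹ : (Matrix N N ℂ)ˣ) : Matrix N N ℂ) ⊗ₖ (1 : Matrix F F ℂ), ?_, ?_⟩, rfl⟩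
  · rw [← Matrix.mul_kronecker_mul, v.mul_inv, mul_one, Matrix.one_kronecker_one]
  · rw [← Matrix.mul_kronecker_mul, v.inv_mul, mul_one, Matrix.one_kronecker_one]

theorem matrix_odd {N : Type} [Fintype N] [DecidableEq N] [Nonempty N] {m : ℕ}
    (g a : Fin (2 * m + 1) → Matrix N N ℂ) (hsq : ∀ j, g j * g j = 1)
    (hanti : ∀ j k, j ≠ k → g j * g k = -(g k * g j)) (ha : ∀ j k, a j * g k = g k * a j)
    (hH : ∀ x, (∑ j, a j * g j - lin g x).IsHermitian) :
    ∃ x, ¬ IsUnit (∑ j, a j * g j - lin g x) := by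
  let s : Matrix (Fin 2) (Fin 2) ℂ := !![0, 1; 1, 0]
  let z : Matrix (Fin 2) (Fin 2) ℂ := !![1, 0; 0, -1]
  have ss : s * s = 1 := by
    ext i j; fin_cases i <;> fin_cases j <;> simp [s, Matrix.mul_apply, Fin.sum_univ_two]
  have zz : z * z = 1 := by
    ext i j; fin_cases i <;> fin_cases j <;> simp [z, Matrix.mul_apply, Fin.sum_univ_two]
  have zs : z * s = -(s * z) := by
    ext i j; fin_cases i <;> fin_cases j <;> simp [z, s, Matrix.mul_apply, Fin.sum_univ_two]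
  obtain ⟨y, hy⟩ := matrix_even (N := N × Fin 2) (m := m)
    (Fin.cons ((1 : Matrix N N ℂ) ⊗ₖ z) (fun j => g j ⊗ₖ s))
    (Fin.cons 0 (fun j => a j ⊗ₖ (1 : Matrix (Fin 2) (Fin 2) ℂ)))
    (by
      intro j
      refine Fin.cases ?_ (fun j => ?_) j
      · simp only [Fin.cons_zero, ← Matrix.mul_kronecker_mul, zz, mul_one, Matrix.one_kronecker_one]
      · simp only [Fin.cons_succ, ← Matrix.mul_kronecker_mul, ss, hsq, Matrix.one_kronecker_one])
    (by
      intro j k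
      refine Fin.cases ?_ (fun j => ?_) j <;> refine Fin.cases ?_ (fun k => ?_) k <;> intro hjk
      · exact absurd rfl hjk
      · simp only [Fin.cons_zero, Fin.cons_succ, ← Matrix.mul_kronecker_mul, zs, kron_neg,
          mul_one, one_mul]
      · simp only [Fin.cons_zero, Fin.cons_succ, ← Matrix.mul_kronecker_mul, zs, kron_neg,
          mul_one, one_mul, neg_neg]
      · simp only [Fin.cons_succ, ← Matrix.mul_kronecker_mul]
        rw [hanti j k (fun e => hjk (by rw [e])), neg_kron])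
    (by
      intro j k
      refine Fin.cases ?_ (fun j => ?_) j <;> refine Fin.cases ?_ (fun k => ?_) k
      · simp
      · simp
      · simp only [Fin.cons_zero, Fin.cons_succ, ← Matrix.mul_kronecker_mul, mul_one, one_mul]
      · simp only [Fin.cons_succ, ← Matrix.mul_kronecker_mul, mul_one, one_mul, ha])
  refine ⟨fun j => y j.succ, fun hun => hy ?_⟩
  set L := ∑ j, a j * g j - lin g (fun j => y j.succ) with hL
  have hLH : L.IsHermitian := hH _
  have e1 : ∑ j : Fin (2 * m + 1 + 1),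
      (Fin.cons 0 (fun j => a j ⊗ₖ (1 : Matrix (Fin 2) (Fin 2) ℂ)) :
        Fin (2 * m + 1 + 1) → Matrix (N × Fin 2) (N × Fin 2) ℂ) j *
      (Fin.cons ((1 : Matrix N N ℂ) ⊗ₖ z) (fun j => g j ⊗ₖ s) :
        Fin (2 * m + 1 + 1) → Matrix (N × Fin 2) (N × Fin 2) ℂ) j -
      lin (Fin.cons ((1 : Matrix N N ℂ) ⊗ₖ z) (fun j => g j ⊗ₖ s) :
        Fin (2 * m + 1 + 1) → Matrix (N × Fin 2) (N × Fin 2) ℂ) y
      = L ⊗ₖ s - (y 0) • ((1 : Matrix N N ℂ) ⊗ₖ z) := by
    rw [hL, sub_kron, ← lin_kron]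
    unfold lin
    rw [Fin.sum_univ_succ, Fin.sum_univ_succ (fun j : Fin (2 * m + 1 + 1) => y j • _)]
    simp only [Fin.cons_zero, Fin.cons_succ, zero_mul, zero_add, ← Matrix.mul_kronecker_mul,
      one_mul]
    have e2 : (∑ j, a j * g j) ⊗ₖ s = ∑ j, (a j * g j) ⊗ₖ s := by
      ext ⟨i, j⟩ ⟨k, l⟩
      simp [Matrix.kroneckerMap_apply, Matrix.sum_apply, Finset.sum_mul]
    rw [e2]
    abel
  rw [e1]
  have e3 : (L ⊗ₖ s - (y 0) • ((1 : Matrix N N ℂ) ⊗ₖ z)) * (L ⊗ₖ s - (y 0) • ((1 : Matrix N N ℂ) ⊗ₖ z))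
      = (L * L + (y 0 ^ 2) • (1 : Matrix N N ℂ)) ⊗ₖ (1 : Matrix (Fin 2) (Fin 2) ℂ) := by
    simp only [sub_mul, mul_sub, smul_mul_assoc, mul_smul_comm, ← Matrix.mul_kronecker_mul, ss, zz,
      zs, kron_neg, mul_one, one_mul, smul_smul, Matrix.add_kronecker, Matrix.smul_kronecker,
      smul_neg, smul_sub, pow_two]
    abel
  have e4 : IsUnit (L * L + (y 0 ^ 2) • (1 : Matrix N N ℂ)) := by
    open scoped ComplexOrder in
    have p1 : (L * L).PosDef := by
      have := Matrix.PosDef.conjTranspose_mul_self L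
        (Matrix.mulVec_injective_of_isUnit hun)
      rwa [hLH.eq] at this
    open scoped ComplexOrder in
    have p2 : ((y 0 ^ 2) • (1 : Matrix N N ℂ)).PosSemidef :=
      Matrix.PosSemidef.one.smul (sq_nonneg _)
    exact (p1.add_posSemidef p2).isUnit
  have e5 : IsUnit ((L * L + (y 0 ^ 2) • (1 : Matrix N N ℂ)) ⊗ₖ (1 : Matrix (Fin 2) (Fin 2) ℂ)) := by
    obtain ⟨v, hv⟩ := e4
    rw [← hv]
    refine ⟨⟨(v : Matrix N N ℂ) ⊗ₖ (1 : Matrix (Fin 2) (Fin 2) ℂ),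
      ((v⁻¹ : (Matrix N N ℂ)ˣ) : Matrix N N ℂ) ⊗ₖ (1 : Matrix (Fin 2) (Fin 2) ℂ), ?_, ?_⟩, rfl⟩
    · rw [← Matrix.mul_kronecker_mul, v.mul_inv, mul_one, Matrix.one_kronecker_one]
    · rw [← Matrix.mul_kronecker_mul, v.inv_mul, mul_one, Matrix.one_kronecker_one]
  rw [← e3] at e5
  rw [Matrix.isUnit_iff_isUnit_det, Matrix.det_mul] at e5
  rw [Matrix.isUnit_iff_isUnit_det]
  exact isUnit_of_mul_isUnit_left e5

theorem main (n d m : ℕ) (hn : 0 < n) (hm : 0 < m)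
    (A : Fin d → Matrix (Fin n) (Fin n) ℂ) (γ : Fin d → Matrix (Fin m) (Fin m) ℂ)
    (hA : ∀ j, (A j).IsHermitian) (hγ : ∀ j, (γ j).IsHermitian) (hsq : ∀ j, γ j * γ j = 1)
    (hanti : ∀ j k, j ≠ k → γ j * γ k = -(γ k * γ j)) :
    ∃ x : Fin d → ℝ, (∑ j : Fin d,
      Matrix.kronecker (A j - ((x j : ℂ)) • (1 : Matrix (Fin n) (Fin n) ℂ)) (γ j)).det = 0 := by
  have : Nonempty (Fin n) := ⟨⟨0, hn⟩⟩
  have : Nonempty (Fin m) := ⟨⟨0, hm⟩⟩
  let g : Fin d → Matrix (Fin n × Fin m) (Fin n × Fin m) ℂ :=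
    fun j => (1 : Matrix (Fin n) (Fin n) ℂ) ⊗ₖ γ j
  let a : Fin d → Matrix (Fin n × Fin m) (Fin n × Fin m) ℂ :=
    fun j => A j ⊗ₖ (1 : Matrix (Fin m) (Fin m) ℂ)
  have e1 : ∀ x : Fin d → ℝ, ∑ j, a j * g j - lin g x = ∑ j : Fin d,
      Matrix.kronecker (A j - ((x j : ℂ)) • (1 : Matrix (Fin n) (Fin n) ℂ)) (γ j) := by
    intro x
    unfold lin
    rw [← Finset.sum_sub_distrib]
    apply Finset.sum_congr rfl
    intro j _
    show _ = (A j - ((x j : ℂ)) • (1 : Matrix (Fin n) (Fin n) ℂ)) ⊗ₖ γ j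
    rw [sub_kron, Matrix.smul_kronecker]
    simp only [a, g, ← Matrix.mul_kronecker_mul, mul_one, one_mul, Complex.coe_smul]
  have gsq : ∀ j, g j * g j = 1 := fun j => by
    simp only [g, ← Matrix.mul_kronecker_mul, mul_one, hsq, Matrix.one_kronecker_one]
  have ganti : ∀ j k, j ≠ k → g j * g k = -(g k * g j) := fun j k hjk => by
    simp only [g, ← Matrix.mul_kronecker_mul, mul_one]
    rw [hanti j k hjk, kron_neg]
  have ag : ∀ j k, a j * g k = g k * a j := fun j k => by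
    simp only [a, g, ← Matrix.mul_kronecker_mul, mul_one, one_mul]
  suffices h : ∃ x, ¬ IsUnit (∑ j, a j * g j - lin g x) by
    obtain ⟨x, hx⟩ := h
    refine ⟨x, ?_⟩
    rw [e1, Matrix.isUnit_iff_isUnit_det, isUnit_iff_ne_zero, not_not] at hx
    exact hx
  obtain ⟨k, rfl | rfl⟩ := Nat.even_or_odd' d
  · cases k with
    | zero =>
      refine ⟨0, ?_⟩
      simp [lin]
    | succ k => exact matrix_even (m := k) g a gsq ganti ag
  · apply matrix_odd g a gsq ganti ag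
    intro x
    rw [e1]
    apply isSelfAdjoint_sum
    intro j _
    show Matrix.IsHermitian ((A j - ((x j : ℂ)) • (1 : Matrix (Fin n) (Fin n) ℂ)) ⊗ₖ γ j)
    unfold Matrix.IsHermitian
    rw [Matrix.conjTranspose_kronecker, (hγ j).eq, Matrix.conjTranspose_sub, (hA j).eq,
      Matrix.conjTranspose_smul, Matrix.conjTranspose_one]
    simp

end Pool.Agent.H488Z.Cliff
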